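import Mathlib

/-!
MP_28250c_PP, block A (helper12): abstract matching systems, the `J ^ t` rule (V1).
-/

set_option autoImplicit false
set_option linter.unusedSectionVars false

namespace Pool.Agent.H12.PPA

open Finset Classical

variable {m n : ℕ} {K E : Type*} [Field K] [AddCommGroup E] [Module K E]

/-- matchings -/
def IsM (T : Finset (Fin m × Fin n)) : Prop :=
  ∀ a ∈ T, ∀ b ∈ T, (a.1 = b.1 ∨ a.2 = b.2) → a = b

variable (m n K E) in
/-- evaluations at the matchings and the map `J` -/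
structure Sys where
  ev : Finset (Fin m × Fin n) → E
  J : E →ₗ[K] E
  nm : ∀ T, ¬ IsM T → ev T = 0
  hp : ∀ T, IsM T → ∀ i, (∀ j, (i, j) ∉ T) → J (ev T) = ∑ j, ev (insert (i, j) T)
  hh : ∀ T, IsM T → ∀ j, (∀ i, (i, j) ∉ T) → J (ev T) = ∑ i, ev (insert (i, j) T)

/-- exchange of pigeons and holes -/
def sw (T : Finset (Fin m × Fin n)) : Finset (Fin n × Fin m) :=
  T.map (Equiv.prodComm (Fin m) (Fin n)).toEmbedding

theorem mem_sw {T : Finset (Fin m × Fin n)} {i : Fin m} {j : Fin n} : (j, i) ∈ sw T ↔ (i, j) ∈ T := by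
  unfold sw
  simp

theorem mem_sw' {T : Finset (Fin m × Fin n)} {e : Fin n × Fin m} : e ∈ sw T ↔ (e.2, e.1) ∈ T := by
  rcases e with ⟨j, i⟩
  exact mem_sw

theorem sw_sw (T : Finset (Fin m × Fin n)) : sw (sw T) = T := by
  ext ⟨i, j⟩
  rw [mem_sw, mem_sw]

theorem sw_card (T : Finset (Fin m × Fin n)) : (sw T).card = T.card := card_map _

theorem sw_insert (T : Finset (Fin m × Fin n)) (i : Fin m) (j : Fin n) : sw (insert (i, j) T) = insert (j, i) (sw T) := by
  ext ⟨b, a⟩
  rw [mem_sw, mem_insert, mem_insert, mem_sw]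
  simp only [Prod.mk.injEq]
  tauto

theorem isM_sw {T : Finset (Fin m × Fin n)} : IsM (sw T) ↔ IsM T := by
  constructor
  · rintro h ⟨i, j⟩ ha ⟨i', j'⟩ hb hab
    have := h (j, i) (mem_sw.2 ha) (j', i') (mem_sw.2 hb) hab.symm
    rw [Prod.mk.injEq] at this ⊢
    exact this.symm
  · rintro h ⟨j, i⟩ ha ⟨j', i'⟩ hb hab
    have := h (i, j) (mem_sw.1 ha) (i', j') (mem_sw.1 hb) hab.symm
    rw [Prod.mk.injEq] at this ⊢
    exact this.symm

/-- the exchanged system -/
def Sys.sw (S : Sys m n K E) : Sys n m K E where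
  ev := fun T => S.ev (PPA.sw T)
  J := S.J
  nm := fun T hT => S.nm _ (fun h => hT (isM_sw.1 h))
  hp := by
    intro T hT i hi
    rw [S.hh (PPA.sw T) (isM_sw.2 hT) i (fun j h => hi j (mem_sw.1 h))]
    refine sum_congr rfl fun j _ => ?_
    rw [sw_insert]
  hh := by
    intro T hT j hj
    rw [S.hp (PPA.sw T) (isM_sw.2 hT) j (fun i h => hj i (mem_sw.1 h))]
    refine sum_congr rfl fun i _ => ?_
    rw [sw_insert]

theorem IsM.fst {T : Finset (Fin m × Fin n)} (h : IsM T) {i i' : Fin m} {j : Fin n} (h1 : (i, j) ∈ T) (h2 : (i', j) ∈ T) :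
    i = i' := by
  have := h _ h1 _ h2 (Or.inr rfl)
  exact (Prod.mk.inj this).1

theorem IsM.snd {T : Finset (Fin m × Fin n)} (h : IsM T) {i : Fin m} {j j' : Fin n} (h1 : (i, j) ∈ T) (h2 : (i, j') ∈ T) :
    j = j' := by
  have := h _ h1 _ h2 (Or.inl rfl)
  exact (Prod.mk.inj this).2

theorem IsM.mono {T T' : Finset (Fin m × Fin n)} (h : IsM T) (hT : T' ⊆ T) : IsM T' :=
  fun a ha b hb => h a (hT ha) b (hT hb)

theorem isM_insert {T : Finset (Fin m × Fin n)} {i : Fin m} {j : Fin n} (h : IsM T) (hi : ∀ j, (i, j) ∉ T)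
    (hj : ∀ i, (i, j) ∉ T) : IsM (insert (i, j) T) := by
  rintro ⟨a, b⟩ ha ⟨a', b'⟩ hb hab
  rw [mem_insert] at ha hb
  rcases ha with ha | ha <;> rcases hb with hb | hb
  · rw [ha, hb]
  · rw [Prod.mk.injEq] at ha
    rcases hab with hab | hab
    · simp only at hab
      rw [← hab, ha.1] at hb
      exact absurd hb (hi _)
    · simp only at hab
      rw [← hab, ha.2] at hb
      exact absurd hb (hj _)
  · rw [Prod.mk.injEq] at hb
    rcases hab with hab | hab
    · simp only at hab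
      rw [hab, hb.1] at ha
      exact absurd ha (hi _)
    · simp only at hab
      rw [hab, hb.2] at ha
      exact absurd ha (hj _)
  · exact h _ ha _ hb hab

/-- the extensions of `T0` by a matching of exactly the holes in `C` -/
noncomputable def ExH (T0 : Finset (Fin m × Fin n)) (C : Finset (Fin n)) : Finset (Finset (Fin m × Fin n)) :=
  univ.filter (fun T => IsM T ∧ T0 ⊆ T ∧ ∀ j, (∃ i, (i, j) ∈ T) ↔ ((∃ i, (i, j) ∈ T0) ∨ j ∈ C))

theorem mem_ExH {T0 T : Finset (Fin m × Fin n)} {C : Finset (Fin n)} :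
    T ∈ ExH T0 C ↔ (IsM T ∧ T0 ⊆ T ∧ ∀ j, (∃ i, (i, j) ∈ T) ↔ ((∃ i, (i, j) ∈ T0) ∨ j ∈ C)) := by
  unfold ExH
  rw [mem_filter]
  exact and_iff_right (mem_univ _)

theorem ExH_empty {T0 : Finset (Fin m × Fin n)} (h0 : IsM T0) : ExH T0 ∅ = {T0} := by
  ext T
  rw [mem_ExH, mem_singleton]
  constructor
  · rintro ⟨h1, h2, h3⟩
    refine Subset.antisymm ?_ h2
    rintro ⟨i, j⟩ hij
    have := (h3 j).1 ⟨i, hij⟩
    rcases this with ⟨i', hi'⟩ | h4
    · rwa [h1.fst hij (h2 hi')]
    · exact absurd h4 (notMem_empty _)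
  · rintro rfl
    refine ⟨h0, Subset.refl _, fun j => ?_⟩
    simp

theorem sum_ExH (ev : Finset (Fin m × Fin n) → E) (nm : ∀ T, ¬ IsM T → ev T = 0) (T0 : Finset (Fin m × Fin n))
    (C : Finset (Fin n)) (j : Fin n) (hj : j ∉ C) (hj0 : ∀ i, (i, j) ∉ T0) :
    (∑ T ∈ ExH T0 C, ∑ i, ev (insert (i, j) T)) = ∑ T ∈ ExH T0 (insert j C), ev T := by
  rw [sum_sigma']
  have h1 : (∑ x ∈ (ExH T0 C).sigma (fun _ => (univ : Finset (Fin m))), ev (insert (x.2, j) x.1)) =
      ∑ x ∈ ((ExH T0 C).sigma (fun _ => (univ : Finset (Fin m)))).filter (fun x => IsM (insert (x.2, j) x.1)),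
        ev (insert (x.2, j) x.1) := by
    rw [sum_filter]
    refine sum_congr rfl fun x _ => ?_
    split_ifs with h
    · rfl
    · exact nm _ h
  rw [h1]
  have hfree : ∀ T ∈ ExH T0 C, ∀ i, (i, j) ∉ T := by
    intro T hT i hi
    rw [mem_ExH] at hT
    rcases (hT.2.2 j).1 ⟨i, hi⟩ with ⟨i', h⟩ | h
    · exact hj0 _ h
    · exact hj h
  refine sum_bij (fun x _ => insert (x.2, j) x.1) ?_ ?_ ?_ ?_
  · rintro ⟨T, i⟩ hx
    rw [mem_filter, mem_sigma] at hx
    obtain ⟨⟨hT, -⟩, hM⟩ := hx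
    simp only at hT hM ⊢
    have hT' := mem_ExH.1 hT
    rw [mem_ExH]
    refine ⟨hM, hT'.2.1.trans (subset_insert _ _), fun j' => ?_⟩
    constructor
    · rintro ⟨i', h⟩
      rw [mem_insert] at h
      rcases h with h | h
      · rw [Prod.mk.injEq] at h
        rw [h.2]
        exact Or.inr (mem_insert_self _ _)
      · rcases (hT'.2.2 j').1 ⟨i', h⟩ with h | h
        · exact Or.inl h
        · exact Or.inr (mem_insert_of_mem h)
    · rintro (h | h)
      · obtain ⟨i', h'⟩ := (hT'.2.2 j').2 (Or.inl h)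
        exact ⟨i', mem_insert_of_mem h'⟩
      · rw [mem_insert] at h
        rcases h with h | h
        · rw [h]
          exact ⟨i, mem_insert_self _ _⟩
        · obtain ⟨i', h'⟩ := (hT'.2.2 j').2 (Or.inr h)
          exact ⟨i', mem_insert_of_mem h'⟩
  · rintro ⟨T, i⟩ hx ⟨T', i'⟩ hx' he
    rw [mem_filter, mem_sigma] at hx hx'
    simp only at he hx hx'
    have e1 : i = i' := by
      have h2 : (i', j) ∈ insert (i, j) T := by
        rw [he]
        exact mem_insert_self _ _
      exact hx.2.fst (mem_insert_self _ _) h2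
    subst e1
    have e2 : T = T' := by
      have h2 : (insert (i, j) T).erase (i, j) = (insert (i, j) T').erase (i, j) := by rw [he]
      rw [erase_insert (hfree T hx.1.1 i), erase_insert (hfree T' hx'.1.1 i)] at h2
      exact h2
    rw [e2]
  · intro T hT
    have hT' := mem_ExH.1 hT
    obtain ⟨i, hi⟩ := (hT'.2.2 j).2 (Or.inr (mem_insert_self _ _))
    refine ⟨⟨T.erase (i, j), i⟩, ?_, ?_⟩
    · rw [mem_filter, mem_sigma]
      simp only
      rw [insert_erase hi, mem_ExH]
      refine ⟨⟨⟨hT'.1.mono (erase_subset _ _), ?_, ?_⟩, mem_univ _⟩, hT'.1⟩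
      · intro e he
        rw [mem_erase]
        refine ⟨?_, hT'.2.1 he⟩
        rintro rfl
        exact hj0 _ he
      · intro j'
        constructor
        · rintro ⟨i', h⟩
          rw [mem_erase] at h
          rcases (hT'.2.2 j').1 ⟨i', h.2⟩ with h3 | h3
          · exact Or.inl h3
          · rw [mem_insert] at h3
            rcases h3 with h3 | h3
            · exfalso
              rw [h3] at h
              apply h.1
              rw [hT'.1.fst h.2 hi]
            · exact Or.inr h3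
        · intro h
          have h2 : (∃ i, (i, j') ∈ T0) ∨ j' ∈ insert j C := by
            rcases h with h | h
            · exact Or.inl h
            · exact Or.inr (mem_insert_of_mem h)
          obtain ⟨i', hi'⟩ := (hT'.2.2 j').2 h2
          refine ⟨i', mem_erase.2 ⟨?_, hi'⟩⟩
          intro h3
          rw [Prod.mk.injEq] at h3
          rw [h3.2] at h
          rcases h with ⟨i'', h⟩ | h
          · exact hj0 _ h
          · exact hj h
    · simp only
      exact insert_erase hi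
  · rintro ⟨T, i⟩ _
    rfl

/-- V1, holes -/
theorem Sys.pow_J (S : Sys m n K E) (T0 : Finset (Fin m × Fin n)) (h0 : IsM T0) (C : Finset (Fin n))
    (hC : ∀ j ∈ C, ∀ i, (i, j) ∉ T0) : (S.J ^ C.card) (S.ev T0) = ∑ T ∈ ExH T0 C, S.ev T := by
  induction C using Finset.induction_on with
  | empty =>
    rw [ExH_empty h0, sum_singleton, card_empty, pow_zero]
    rfl
  | insert j C hj ih =>
    have ih' := ih (fun j' hj' => hC j' (mem_insert_of_mem hj'))
    rw [card_insert_of_notMem hj, pow_succ', Module.End.mul_apply, ih', map_sum,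
      ← sum_ExH S.ev S.nm T0 C j hj (hC j (mem_insert_self _ _))]
    refine sum_congr rfl fun T hT => ?_
    have hT' := mem_ExH.1 hT
    refine S.hh T hT'.1 j ?_
    intro i hi
    rcases (hT'.2.2 j).1 ⟨i, hi⟩ with ⟨i', h⟩ | h
    · exact hC j (mem_insert_self _ _) i' h
    · exact hj h

theorem card_ExH {T0 T : Finset (Fin m × Fin n)} {C : Finset (Fin n)} (hT : T ∈ ExH T0 C)
    (hC : ∀ j ∈ C, ∀ i, (i, j) ∉ T0) : T.card = T0.card + C.card := by
  have hT' := mem_ExH.1 hT
  have h1 : T.card = (T.image Prod.snd).card := by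
    rw [card_image_of_injOn]
    rintro ⟨a, b⟩ ha ⟨a', b'⟩ hb hab
    exact hT'.1 _ ha _ hb (Or.inr hab)
  have h2 : T0.card = (T0.image Prod.snd).card := by
    rw [card_image_of_injOn]
    rintro ⟨a, b⟩ ha ⟨a', b'⟩ hb hab
    exact hT'.1 _ (hT'.2.1 ha) _ (hT'.2.1 hb) (Or.inr hab)
  rw [h1, h2, ← card_union_of_disjoint]
  · congr 1
    ext j
    rw [mem_union, mem_image, mem_image]
    have := hT'.2.2 j
    simp only [Prod.exists, exists_eq_right] at this ⊢
    exact this
  · rw [disjoint_left]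
    intro j hj hj'
    rw [mem_image] at hj
    obtain ⟨⟨a, b⟩, h3, h4⟩ := hj
    simp only at h4
    rw [h4] at h3
    exact hC j hj' _ h3

end Pool.Agent.H12.PPA
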