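import Pool.Agent.H12.PP.A0

/-!
MP_28250c_PP, block A (helper12): labelled sums and the basic relations (A2).
-/

set_option autoImplicit false
set_option linter.unusedSectionVars false

namespace Pool.Agent.H12.PPA

open Finset Classical

variable {m n : ℕ} {K E : Type*} [Field K] [AddCommGroup E] [Module K E]

/-- the matching `T` fits the labels -/
def Fits (P : Fin m → ℕ) (Q : Fin n → ℕ) (T : Finset (Fin m × Fin n)) : Prop :=
  IsM T ∧ (∀ i, P i ≠ 0 ↔ ∃ j, (i, j) ∈ T) ∧ (∀ j, Q j ≠ 0 ↔ ∃ i, (i, j) ∈ T) ∧ ∀ i j, (i, j) ∈ T → P i = Q j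

/-- the labelled sum -/
noncomputable def Sys.ff (S : Sys m n K E) (P : Fin m → ℕ) (Q : Fin n → ℕ) : E :=
  ∑ T ∈ univ.filter (Fits P Q), S.ev T

/-- the number of points with label `i` -/
noncomputable def fib {k : ℕ} (P : Fin k → ℕ) (i : ℕ) : ℕ := (univ.filter (fun u => P u = i)).card

/-- the number of points with a positive label -/
noncomputable def siz {k : ℕ} (P : Fin k → ℕ) : ℕ := (univ.filter (fun u => P u ≠ 0)).card

/-- the sum of the labels -/
def wt {k : ℕ} (P : Fin k → ℕ) : ℕ := ∑ u, P u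

/-- the weighted sum of the labels -/
def ph {k : ℕ} (P : Fin k → ℕ) : ℕ := ∑ u, u.val * P u

def IsPair (P : Fin m → ℕ) (Q : Fin n → ℕ) : Prop := ∀ i, fib P (i + 1) = fib Q (i + 1)

theorem fits_sw {P : Fin m → ℕ} {Q : Fin n → ℕ} {T : Finset (Fin m × Fin n)} : Fits Q P (sw T) ↔ Fits P Q T := by
  unfold Fits
  rw [isM_sw]
  simp only [mem_sw]
  constructor
  · rintro ⟨a, b, c, d⟩
    exact ⟨a, c, b, fun i j h => (d j i h).symm⟩
  · rintro ⟨a, b, c, d⟩
    exact ⟨a, c, b, fun i j h => (d j i h).symm⟩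

theorem Sys.ff_sw (S : Sys m n K E) (P : Fin m → ℕ) (Q : Fin n → ℕ) : S.sw.ff Q P = S.ff P Q := by
  unfold Sys.ff
  refine sum_bij (fun T _ => PPA.sw T) ?_ ?_ ?_ ?_
  · intro T hT
    rw [mem_filter] at hT ⊢
    exact ⟨mem_univ _, fits_sw.2 hT.2⟩
  · intro T _ T' _ h
    rw [← sw_sw T, h, sw_sw]
  · intro T hT
    rw [mem_filter] at hT
    exact ⟨PPA.sw T, mem_filter.2 ⟨mem_univ _, fits_sw.2 hT.2⟩, sw_sw T⟩
  · intro T _
    rfl

/-- labels `i` on `Om`, except `i + 1` on `A` -/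
def up (P : Fin m → ℕ) (Om : Finset (Fin m)) (i : ℕ) (A : Finset (Fin m)) : Fin m → ℕ :=
  fun u => if u ∈ A then i + 1 else if u ∈ Om then i else P u

/-- labels `i` on `C` -/
def dn (Q : Fin n → ℕ) (C : Finset (Fin n)) (i : ℕ) : Fin n → ℕ := fun j => if j ∈ C then i else Q j

/-- the two rows -/
def om (P : Fin m → ℕ) (i : ℕ) : Finset (Fin m) := univ.filter (fun u => P u = i ∨ P u = i + 1)

theorem mem_om {P : Fin m → ℕ} {i : ℕ} {u : Fin m} : u ∈ om P i ↔ P u = i ∨ P u = i + 1 := by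
  unfold om
  rw [mem_filter]
  exact and_iff_right (mem_univ _)

theorem up_A {P : Fin m → ℕ} {Om A : Finset (Fin m)} {i : ℕ} {u : Fin m} (h : u ∈ A) : up P Om i A u = i + 1 := by
  unfold up
  rw [if_pos h]

theorem up_O {P : Fin m → ℕ} {Om A : Finset (Fin m)} {i : ℕ} {u : Fin m} (h : u ∉ A) (h' : u ∈ Om) : up P Om i A u = i := by
  unfold up
  rw [if_neg h, if_pos h']

theorem up_N {P : Fin m → ℕ} {Om A : Finset (Fin m)} {i : ℕ} {u : Fin m} (hA : A ⊆ Om) (h' : u ∉ Om) :
    up P Om i A u = P u := by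
  unfold up
  rw [if_neg (fun h => h' (hA h)), if_neg h']

theorem dn_C {Q : Fin n → ℕ} {C : Finset (Fin n)} {i : ℕ} {j : Fin n} (h : j ∈ C) : dn Q C i j = i := if_pos h

theorem dn_N {Q : Fin n → ℕ} {C : Finset (Fin n)} {i : ℕ} {j : Fin n} (h : j ∉ C) : dn Q C i j = Q j := if_neg h

/-- edges whose hole has label `i` -/
noncomputable def eT (Q : Fin n → ℕ) (i : ℕ) (T : Finset (Fin m × Fin n)) : Finset (Fin m) :=
  univ.filter (fun u => ∃ j, (u, j) ∈ T ∧ Q j = i)

theorem mem_eT {Q : Fin n → ℕ} {i : ℕ} {T : Finset (Fin m × Fin n)} {u : Fin m} :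
    u ∈ eT Q i T ↔ ∃ j, (u, j) ∈ T ∧ Q j = i := by
  unfold eT
  rw [mem_filter]
  exact and_iff_right (mem_univ _)

/-- matched points, two sides -/
theorem card_match {T : Finset (Fin m × Fin n)} (h : IsM T) (A : Finset (Fin m)) (B : Finset (Fin n))
    (hA : ∀ u ∈ A, ∃ j ∈ B, (u, j) ∈ T) (hB : ∀ j ∈ B, ∃ u ∈ A, (u, j) ∈ T) : A.card = B.card := by
  refine card_bij (fun u hu => (hA u hu).choose) ?_ ?_ ?_
  · intro u hu
    exact (hA u hu).choose_spec.1
  · intro u hu u' hu' he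
    have h1 := (hA u hu).choose_spec.2
    have h2 := (hA u' hu').choose_spec.2
    rw [he] at h1
    exact h.fst h1 h2
  · intro j hj
    obtain ⟨u, hu, h1⟩ := hB j hj
    exact ⟨u, hu, h.snd (hA u hu).choose_spec.2 h1⟩

theorem card_eT {Q : Fin n → ℕ} {i : ℕ} {T : Finset (Fin m × Fin n)} (hT : IsM T)
    (hQ : ∀ j, Q j = i → ∃ u, (u, j) ∈ T) : (eT Q i T).card = fib Q i := by
  unfold fib
  refine card_match hT _ _ ?_ ?_
  · intro u hu
    obtain ⟨j, h1, h2⟩ := mem_eT.1 hu
    exact ⟨j, mem_filter.2 ⟨mem_univ _, h2⟩, h1⟩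
  · intro j hj
    rw [mem_filter] at hj
    obtain ⟨u, hu⟩ := hQ j hj.2
    exact ⟨u, mem_eT.2 ⟨j, hu, hj.2⟩, hu⟩

/-- the middle family of A2, rows `i, i + 1` with `i ≥ 1` -/
def Mid (P : Fin m → ℕ) (Q : Fin n → ℕ) (i : ℕ) (Z : Finset (Fin m)) (T : Finset (Fin m × Fin n)) : Prop :=
  IsM T ∧ (∀ u, P u ≠ 0 ↔ ∃ j, (u, j) ∈ T) ∧ (∀ j, Q j ≠ 0 ↔ ∃ u, (u, j) ∈ T) ∧
    ∀ u j, (u, j) ∈ T → (u ∉ om P i → P u = Q j) ∧ (u ∈ om P i → Q j = i ∨ Q j = i + 1) ∧ (u ∈ Z → Q j = i + 1)

theorem up_ne {P : Fin m → ℕ} {i : ℕ} (hi : i ≠ 0) {A : Finset (Fin m)} (hA : A ⊆ om P i) (u : Fin m) :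
    up P (om P i) i A u ≠ 0 ↔ P u ≠ 0 := by
  by_cases h1 : u ∈ A
  · rw [up_A h1]
    have := mem_om.1 (hA h1)
    constructor
    · intro _
      omega
    · intro _
      omega
  · by_cases h2 : u ∈ om P i
    · rw [up_O h1 h2]
      have := mem_om.1 h2
      constructor
      · intro _
        omega
      · intro _
        exact hi
    · rw [up_N hA h2]

theorem mid_left {P : Fin m → ℕ} {Q : Fin n → ℕ} {i : ℕ} (hi : i ≠ 0) {Z : Finset (Fin m)} (hZ : Z ⊆ om P i)
    (A : Finset (Fin m)) (T : Finset (Fin m × Fin n)) :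
    (A ∈ ((om P i).powersetCard (fib Q (i + 1))).filter (fun A => Z ⊆ A) ∧ T ∈ univ.filter (Fits (up P (om P i) i A) Q)) ↔
      (A ∈ ({eT Q (i + 1) T} : Finset (Finset (Fin m))) ∧ T ∈ univ.filter (Mid P Q i Z)) := by
  rw [mem_filter, mem_powersetCard, mem_filter, mem_singleton, mem_filter]
  constructor
  · rintro ⟨⟨⟨hA, hc⟩, hZA⟩, -, hM, hP, hQ, hT⟩
    have hup := up_ne hi hA
    refine ⟨?_, mem_univ _, hM, fun u => (hup u).symm.trans (hP u), hQ, ?_⟩
    · ext u
      rw [mem_eT]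
      constructor
      · intro hu
        obtain ⟨j, hj⟩ := (hP u).1 (by rw [up_A hu]; omega)
        refine ⟨j, hj, ?_⟩
        rw [← hT u j hj, up_A hu]
      · rintro ⟨j, hj, hq⟩
        by_contra hu
        have h1 := hT u j hj
        rw [hq] at h1
        by_cases h2 : u ∈ om P i
        · rw [up_O hu h2] at h1
          omega
        · rw [up_N hA h2] at h1
          exact h2 (mem_om.2 (Or.inr h1))
    · intro u j hj
      have h1 := hT u j hj
      refine ⟨fun h2 => by rw [← h1, up_N hA h2], fun h2 => ?_, fun h2 => by rw [← h1, up_A (hZA h2)]⟩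
      by_cases h3 : u ∈ A
      · rw [up_A h3] at h1
        exact Or.inr h1.symm
      · rw [up_O h3 h2] at h1
        exact Or.inl h1.symm
  · rintro ⟨rfl, -, hM, hP, hQ, hT⟩
    have hA : eT Q (i + 1) T ⊆ om P i := by
      intro u hu
      obtain ⟨j, hj, hq⟩ := mem_eT.1 hu
      by_contra h2
      have := (hT u j hj).1 h2
      rw [hq] at this
      exact h2 (mem_om.2 (Or.inr this))
    refine ⟨⟨⟨hA, ?_⟩, ?_⟩, mem_univ _, hM, fun u => (up_ne hi hA u).trans (hP u), hQ, ?_⟩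
    · refine card_eT hM fun j hj => (hQ j).1 (by omega)
    · intro u hu
      have h1 := mem_om.1 (hZ hu)
      obtain ⟨j, hj⟩ := (hP u).1 (by omega)
      exact mem_eT.2 ⟨j, hj, (hT u j hj).2.2 hu⟩
    · intro u j hj
      by_cases h1 : u ∈ eT Q (i + 1) T
      · obtain ⟨j', hj', hq⟩ := mem_eT.1 h1
        rw [up_A h1, hM.snd hj hj', hq]
      · by_cases h2 : u ∈ om P i
        · rw [up_O h1 h2]
          rcases (hT u j hj).2.1 h2 with h3 | h3
          · exact h3.symm
          · exact absurd (mem_eT.2 ⟨j, hj, h3⟩) h1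
        · rw [up_N hA h2]
          exact (hT u j hj).1 h2

/-- the holes of label `i + 1` matched outside `Z` -/
noncomputable def cT (Q : Fin n → ℕ) (i : ℕ) (Z : Finset (Fin m)) (T : Finset (Fin m × Fin n)) : Finset (Fin n) :=
  univ.filter (fun j => Q j = i + 1 ∧ ∃ u, (u, j) ∈ T ∧ u ∉ Z)

theorem mem_cT {Q : Fin n → ℕ} {i : ℕ} {Z : Finset (Fin m)} {T : Finset (Fin m × Fin n)} {j : Fin n} :
    j ∈ cT Q i Z T ↔ (Q j = i + 1 ∧ ∃ u, (u, j) ∈ T ∧ u ∉ Z) := by
  unfold cT
  rw [mem_filter]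
  exact and_iff_right (mem_univ _)

/-- the holes of label `i` -/
def row {k : ℕ} (Q : Fin k → ℕ) (i : ℕ) : Finset (Fin k) := univ.filter (fun j => Q j = i)

theorem mem_row {k : ℕ} {Q : Fin k → ℕ} {i : ℕ} {j : Fin k} : j ∈ row Q i ↔ Q j = i := by
  unfold row
  rw [mem_filter]
  exact and_iff_right (mem_univ _)

theorem card_row {k : ℕ} (Q : Fin k → ℕ) (i : ℕ) : (row Q i).card = fib Q i := by
  unfold fib row
  congr!

theorem mid_right {P : Fin m → ℕ} {Q : Fin n → ℕ} {i : ℕ} (hi : i ≠ 0) {Z : Finset (Fin m)} (hZ : Z ⊆ om P i)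
    (C : Finset (Fin n)) (T : Finset (Fin m × Fin n)) :
    (C ∈ (row Q (i + 1)).powersetCard (fib Q (i + 1) - Z.card) ∧
      T ∈ univ.filter (Fits (up P (om P i) i Z) (dn Q C i))) ↔
      (C ∈ ({cT Q i Z T} : Finset (Finset (Fin n))) ∧ T ∈ univ.filter (Mid P Q i Z)) := by
  rw [mem_powersetCard, mem_filter, mem_singleton, mem_filter]
  have hup := up_ne hi hZ
  constructor
  · rintro ⟨⟨hC, hc⟩, -, hM, hP, hQ, hT⟩
    have hdn : ∀ j, dn Q C i j ≠ 0 ↔ Q j ≠ 0 := by
      intro j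
      by_cases h : j ∈ C
      · rw [dn_C h]
        have := mem_row.1 (hC h)
        constructor
        · intro _
          omega
        · intro _
          exact hi
      · rw [dn_N h]
    refine ⟨?_, mem_univ _, hM, fun u => (hup u).symm.trans (hP u), fun j => (hdn j).symm.trans (hQ j), ?_⟩
    · ext j
      rw [mem_cT]
      constructor
      · intro hj
        have h1 := mem_row.1 (hC hj)
        obtain ⟨u, hu⟩ := (hQ j).1 (by rw [dn_C hj]; exact hi)
        refine ⟨h1, u, hu, fun h2 => ?_⟩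
        have h3 := hT u j hu
        rw [up_A h2, dn_C hj] at h3
        omega
      · rintro ⟨h1, u, hu, h2⟩
        by_contra hj
        have h3 := hT u j hu
        rw [dn_N hj, h1] at h3
        by_cases h4 : u ∈ om P i
        · rw [up_O h2 h4] at h3
          omega
        · rw [up_N hZ h4] at h3
          exact h4 (mem_om.2 (Or.inr h3))
    · intro u j hj
      have h1 := hT u j hj
      refine ⟨fun h2 => ?_, fun h2 => ?_, fun h2 => ?_⟩
      · rw [up_N hZ h2] at h1
        by_cases h3 : j ∈ C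
        · rw [dn_C h3] at h1
          exact absurd (mem_om.2 (Or.inl h1)) h2
        · rwa [dn_N h3] at h1
      · by_cases h3 : j ∈ C
        · exact Or.inr (mem_row.1 (hC h3))
        · rw [dn_N h3] at h1
          by_cases h4 : u ∈ Z
          · rw [up_A h4] at h1
            exact Or.inr h1.symm
          · rw [up_O h4 h2] at h1
            exact Or.inl h1.symm
      · rw [up_A h2] at h1
        by_cases h3 : j ∈ C
        · rw [dn_C h3] at h1
          omega
        · rw [dn_N h3] at h1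
          exact h1.symm
  · rintro ⟨rfl, -, hM, hP, hQ, hT⟩
    have hC : cT Q i Z T ⊆ row Q (i + 1) := fun j hj => mem_row.2 (mem_cT.1 hj).1
    have hdn : ∀ j, dn Q (cT Q i Z T) i j ≠ 0 ↔ Q j ≠ 0 := by
      intro j
      by_cases h : j ∈ cT Q i Z T
      · rw [dn_C h]
        have := mem_row.1 (hC h)
        constructor
        · intro _
          omega
        · intro _
          exact hi
      · rw [dn_N h]
    refine ⟨⟨hC, ?_⟩, mem_univ _, hM, fun u => (hup u).trans (hP u), fun j => (hdn j).trans (hQ j), ?_⟩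
    · have h1 : Z.card = (row Q (i + 1) \ cT Q i Z T).card := by
        refine card_match hM _ _ ?_ ?_
        · intro u hu
          have h2 := mem_om.1 (hZ hu)
          obtain ⟨j, hj⟩ := (hP u).1 (by omega)
          refine ⟨j, mem_sdiff.2 ⟨mem_row.2 ((hT u j hj).2.2 hu), fun h3 => ?_⟩, hj⟩
          obtain ⟨-, u', hu', h4⟩ := mem_cT.1 h3
          rw [hM.fst hu' hj] at h4
          exact h4 hu
        · intro j hj
          rw [mem_sdiff] at hj
          have h2 := mem_row.1 hj.1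
          obtain ⟨u, hu⟩ := (hQ j).1 (by omega)
          refine ⟨u, ?_, hu⟩
          by_contra h3
          exact hj.2 (mem_cT.2 ⟨h2, u, hu, h3⟩)
      have h2 := card_sdiff_add_card_eq_card hC
      rw [card_row] at h2
      omega
    · intro u j hj
      by_cases h1 : u ∈ Z
      · have h2 := (hT u j hj).2.2 h1
        rw [up_A h1, dn_N, h2]
        intro h3
        obtain ⟨-, u', hu', h4⟩ := mem_cT.1 h3
        rw [hM.fst hu' hj] at h4
        exact h4 h1
      · by_cases h2 : u ∈ om P i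
        · rw [up_O h1 h2]
          rcases (hT u j hj).2.1 h2 with h3 | h3
          · rw [dn_N, h3]
            intro h4
            have := (mem_cT.1 h4).1
            omega
          · rw [dn_C (mem_cT.2 ⟨h3, u, hj, h1⟩)]
        · rw [up_N hZ h2]
          have h3 := (hT u j hj).1 h2
          rw [dn_N, h3]
          intro h4
          have h5 := (mem_cT.1 h4).1
          rw [h5] at h3
          exact h2 (mem_om.2 (Or.inr h3))

/-- A2, rows `i, i + 1`, `i ≥ 1` -/
theorem Sys.basic (S : Sys m n K E) (P : Fin m → ℕ) (Q : Fin n → ℕ) {i : ℕ} (hi : i ≠ 0) {Z : Finset (Fin m)}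
    (hZ : Z ⊆ om P i) :
    (∑ A ∈ ((om P i).powersetCard (fib Q (i + 1))).filter (fun A => Z ⊆ A), S.ff (up P (om P i) i A) Q) =
      ∑ C ∈ (row Q (i + 1)).powersetCard (fib Q (i + 1) - Z.card), S.ff (up P (om P i) i Z) (dn Q C i) := by
  unfold Sys.ff
  rw [sum_comm' (t' := univ.filter (Mid P Q i Z)) (s' := fun T => {eT Q (i + 1) T}) (fun A T => mid_left hi hZ A T),
    sum_comm' (t' := univ.filter (Mid P Q i Z)) (s' := fun T => {cT Q i Z T}) (fun C T => mid_right hi hZ C T)]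
  refine sum_congr rfl fun T _ => ?_
  rw [sum_singleton, sum_singleton]

end Pool.Agent.H12.PPA
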