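import Pool.Agent.H12.PP.A1

/-!
MP_28250c_PP, block A (helper12): the basic relation for row 0 and the Garnir argument (A2, A3).
-/

set_option autoImplicit false
set_option linter.unusedSectionVars false

namespace Pool.Agent.H12.PPA

open Finset Classical

variable {m n : ℕ} {K E : Type*} [Field K] [AddCommGroup E] [Module K E]

/-- the middle family of A2, row 0 -/
def Mid0 (P : Fin m → ℕ) (Q : Fin n → ℕ) (Z : Finset (Fin m)) (T : Finset (Fin m × Fin n)) : Prop :=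
  IsM T ∧ (∀ u, (u ∉ om P 0 ∨ u ∈ Z) → ∃ j, (u, j) ∈ T) ∧ (∀ j, Q j ≠ 0 ↔ ∃ u, (u, j) ∈ T) ∧
    ∀ u j, (u, j) ∈ T → (u ∉ om P 0 → P u = Q j) ∧ (u ∈ om P 0 → Q j = 1)

theorem mid_left0 {P : Fin m → ℕ} {Q : Fin n → ℕ} {Z : Finset (Fin m)} (hZ : Z ⊆ om P 0)
    (A : Finset (Fin m)) (T : Finset (Fin m × Fin n)) :
    (A ∈ ((om P 0).powersetCard (fib Q (0 + 1))).filter (fun A => Z ⊆ A) ∧ T ∈ univ.filter (Fits (up P (om P 0) 0 A) Q)) ↔
      (A ∈ ({eT Q 1 T} : Finset (Finset (Fin m))) ∧ T ∈ univ.filter (Mid0 P Q Z)) := by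
  rw [mem_filter, mem_powersetCard, mem_filter, mem_singleton, mem_filter]
  constructor
  · rintro ⟨⟨⟨hA, hc⟩, hZA⟩, -, hM, hP, hQ, hT⟩
    refine ⟨?_, mem_univ _, hM, ?_, hQ, ?_⟩
    · ext u
      rw [mem_eT]
      constructor
      · intro hu
        obtain ⟨j, hj⟩ := (hP u).1 (by rw [up_A hu]; omega)
        refine ⟨j, hj, ?_⟩
        rw [← hT u j hj, up_A hu]
      · rintro ⟨j, hj, hq⟩
        by_contra hu
        have h1 := hT u j hj
        rw [hq] at h1
        by_cases h2 : u ∈ om P 0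
        · rw [up_O hu h2] at h1
          omega
        · rw [up_N hA h2] at h1
          exact h2 (mem_om.2 (Or.inr h1))
    · rintro u (hu | hu)
      · refine (hP u).1 ?_
        rw [up_N hA hu]
        intro h0
        exact hu (mem_om.2 (Or.inl h0))
      · refine (hP u).1 ?_
        rw [up_A (hZA hu)]
        omega
    · intro u j hj
      have h1 := hT u j hj
      refine ⟨fun h2 => by rw [← h1, up_N hA h2], fun h2 => ?_⟩
      by_cases h3 : u ∈ A
      · rw [up_A h3] at h1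
        exact h1.symm
      · have h4 := (hP u).2 ⟨j, hj⟩
        rw [up_O h3 h2] at h4
        exact absurd rfl h4
  · rintro ⟨rfl, -, hM, hP, hQ, hT⟩
    have hA : eT Q 1 T ⊆ om P 0 := by
      intro u hu
      obtain ⟨j, hj, hq⟩ := mem_eT.1 hu
      by_contra h2
      have := (hT u j hj).1 h2
      rw [hq] at this
      exact h2 (mem_om.2 (Or.inr this))
    refine ⟨⟨⟨hA, ?_⟩, ?_⟩, mem_univ _, hM, fun u => ?_, hQ, ?_⟩
    · refine card_eT hM fun j hj => (hQ j).1 (by omega)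
    · intro u hu
      obtain ⟨j, hj⟩ := hP u (Or.inr hu)
      exact mem_eT.2 ⟨j, hj, (hT u j hj).2 (hZ hu)⟩
    · by_cases h1 : u ∈ eT Q 1 T
      · obtain ⟨j', hj', hq⟩ := mem_eT.1 h1
        rw [up_A h1]
        constructor
        · intro _
          exact ⟨j', hj'⟩
        · intro _
          omega
      · by_cases h2 : u ∈ om P 0
        · rw [up_O h1 h2]
          constructor
          · intro h
            exact absurd rfl h
          · rintro ⟨j, hj⟩
            exact absurd (mem_eT.2 ⟨j, hj, (hT u j hj).2 h2⟩) h1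
        · rw [up_N hA h2]
          constructor
          · intro _
            exact hP u (Or.inl h2)
          · intro _ h0
            exact h2 (mem_om.2 (Or.inl h0))
    · intro u j hj
      by_cases h1 : u ∈ eT Q 1 T
      · obtain ⟨j', hj', hq⟩ := mem_eT.1 h1
        rw [up_A h1, hM.snd hj hj', hq]
      · by_cases h2 : u ∈ om P 0
        · exact absurd (mem_eT.2 ⟨j, hj, (hT u j hj).2 h2⟩) h1
        · rw [up_N hA h2]
          exact (hT u j hj).1 h2

/-- the small matchings of A2, row 0 -/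
def Sm0 (P : Fin m → ℕ) (Q : Fin n → ℕ) (Z : Finset (Fin m)) (T : Finset (Fin m × Fin n)) : Prop :=
  IsM T ∧ (∀ u, (∃ j, (u, j) ∈ T) ↔ (u ∉ om P 0 ∨ u ∈ Z)) ∧ (∀ u j, (u, j) ∈ T → Q j ≠ 0) ∧
    (∀ j, Q j ≠ 0 → Q j ≠ 1 → ∃ u, (u, j) ∈ T) ∧ ∀ u j, (u, j) ∈ T → (u ∉ om P 0 → P u = Q j) ∧ (u ∈ om P 0 → Q j = 1)

/-- the free holes of label 1 -/
noncomputable def fr1 (Q : Fin n → ℕ) (T : Finset (Fin m × Fin n)) : Finset (Fin n) :=
  univ.filter (fun j => Q j = 1 ∧ ∀ u, (u, j) ∉ T)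

theorem mem_fr1 {Q : Fin n → ℕ} {T : Finset (Fin m × Fin n)} {j : Fin n} : j ∈ fr1 Q T ↔ (Q j = 1 ∧ ∀ u, (u, j) ∉ T) := by
  unfold fr1
  rw [mem_filter]
  exact and_iff_right (mem_univ _)

theorem mid_right0 {P : Fin m → ℕ} {Q : Fin n → ℕ} {Z : Finset (Fin m)}
    (T0 : Finset (Fin m × Fin n)) (T : Finset (Fin m × Fin n)) :
    (T0 ∈ univ.filter (Sm0 P Q Z) ∧ T ∈ ExH T0 (fr1 Q T0)) ↔
      (T0 ∈ ({T.filter (fun e => e.1 ∉ om P 0 ∨ e.1 ∈ Z)} : Finset (Finset (Fin m × Fin n))) ∧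
        T ∈ univ.filter (Mid0 P Q Z)) := by
  rw [mem_filter, mem_ExH, mem_singleton, mem_filter]
  constructor
  · rintro ⟨⟨-, hM0, hP, hQ, hQ2, hT0⟩, hM, hsub, hex⟩
    have e0 : ∀ u j, (u, j) ∈ T → (u ∉ om P 0 ∨ u ∈ Z) → (u, j) ∈ T0 := by
      intro u j hj hu
      obtain ⟨j', hj'⟩ := (hP u).2 hu
      rwa [hM.snd hj (hsub hj')]
    refine ⟨?_, mem_univ _, hM, ?_, ?_, ?_⟩
    · ext ⟨u, j⟩
      rw [mem_filter]
      constructor
      · intro h
        exact ⟨hsub h, (hP u).1 ⟨j, h⟩⟩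
      · rintro ⟨h1, h2⟩
        exact e0 u j h1 h2
    · intro u hu
      obtain ⟨j, hj⟩ := (hP u).2 hu
      exact ⟨j, hsub hj⟩
    · intro j
      constructor
      · intro hj
        by_cases h1 : Q j = 1
        · by_cases h2 : ∃ u, (u, j) ∈ T0
          · exact (hex j).2 (Or.inl h2)
          · exact (hex j).2 (Or.inr (mem_fr1.2 ⟨h1, fun u hu => h2 ⟨u, hu⟩⟩))
        · exact (hex j).2 (Or.inl (hQ2 j hj h1))
      · intro hj
        rcases (hex j).1 hj with ⟨u, hu⟩ | h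
        · exact hQ u j hu
        · have := (mem_fr1.1 h).1
          omega
    · intro u j hj
      refine ⟨fun h => (hT0 u j (e0 u j hj (Or.inl h))).1 h, fun h => ?_⟩
      rcases (hex j).1 ⟨u, hj⟩ with ⟨u', hu'⟩ | h1
      · rw [hM.fst hj (hsub hu')] at h
        exact (hT0 u' j hu').2 h
      · exact (mem_fr1.1 h1).1
  · rintro ⟨rfl, -, hM, hP, hQ, hT⟩
    refine ⟨⟨mem_univ _, hM.mono (filter_subset _ _), ?_, ?_, ?_, ?_⟩, hM, filter_subset _ _, ?_⟩
    · intro u
      constructor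
      · rintro ⟨j, hj⟩
        exact (mem_filter.1 hj).2
      · intro h
        obtain ⟨j, hj⟩ := hP u h
        exact ⟨j, mem_filter.2 ⟨hj, h⟩⟩
    · intro u j hj
      exact (hQ j).2 ⟨u, (mem_filter.1 hj).1⟩
    · intro j h0 h1
      obtain ⟨u, hu⟩ := (hQ j).1 h0
      refine ⟨u, mem_filter.2 ⟨hu, Or.inl fun h => ?_⟩⟩
      exact h1 ((hT u j hu).2 h)
    · intro u j hj
      exact hT u j (mem_filter.1 hj).1
    · intro j
      constructor
      · rintro ⟨u, hu⟩
        by_cases h2 : ∃ u, (u, j) ∈ T.filter (fun e => e.1 ∉ om P 0 ∨ e.1 ∈ Z)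
        · exact Or.inl h2
        · refine Or.inr (mem_fr1.2 ⟨?_, fun u hu => h2 ⟨u, hu⟩⟩)
          by_cases h3 : u ∈ om P 0
          · exact (hT u j hu).2 h3
          · exact absurd ⟨u, mem_filter.2 ⟨hu, Or.inl h3⟩⟩ h2
      · rintro (⟨u, hu⟩ | h)
        · exact ⟨u, (mem_filter.1 hu).1⟩
        · exact (hQ j).1 (by rw [(mem_fr1.1 h).1]; omega)

/-- A2, row 0 -/
theorem Sys.basic0 (S : Sys m n K E) (P : Fin m → ℕ) (Q : Fin n → ℕ) {Z : Finset (Fin m)}
    (hZ : Z ⊆ om P 0) (hc : Z.card < fib Q (0 + 1)) (N : Submodule K E)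
    (hN : ∀ T, IsM T → T.card + 1 = siz Q → S.J (S.ev T) ∈ N) :
    (∑ A ∈ ((om P 0).powersetCard (fib Q (0 + 1))).filter (fun A => Z ⊆ A), S.ff (up P (om P 0) 0 A) Q) ∈ N := by
  have e : (∑ A ∈ ((om P 0).powersetCard (fib Q (0 + 1))).filter (fun A => Z ⊆ A), S.ff (up P (om P 0) 0 A) Q) =
      ∑ T0 ∈ univ.filter (Sm0 P Q Z), ∑ T ∈ ExH T0 (fr1 Q T0), S.ev T := by
    unfold Sys.ff
    rw [sum_comm' (t' := univ.filter (Mid0 P Q Z)) (s' := fun T => {eT Q 1 T}) (fun A T => mid_left0 hZ A T),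
      sum_comm' (t' := univ.filter (Mid0 P Q Z)) (s' := fun T => {T.filter (fun e => e.1 ∉ om P 0 ∨ e.1 ∈ Z)})
        (fun C T => mid_right0 C T)]
    refine sum_congr rfl fun T _ => ?_
    rw [sum_singleton, sum_singleton]
  rw [e]
  refine Submodule.sum_mem _ fun T0 hT0 => ?_
  obtain ⟨-, hM0, hP, hQ, hQ2, hT0'⟩ := mem_filter.1 hT0
  have hfr : ∀ j ∈ fr1 Q T0, ∀ u, (u, j) ∉ T0 := fun j hj => (mem_fr1.1 hj).2
  rw [← S.pow_J T0 hM0 (fr1 Q T0) hfr]
  have hcz : Z.card = (row Q 1 \ fr1 Q T0).card := by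
    refine card_match hM0 _ _ ?_ ?_
    · intro u hu
      obtain ⟨j, hj⟩ := (hP u).2 (Or.inr hu)
      refine ⟨j, mem_sdiff.2 ⟨mem_row.2 ((hT0' u j hj).2 (hZ hu)), fun h => ?_⟩, hj⟩
      exact hfr j h u hj
    · intro j hj
      rw [mem_sdiff, mem_row] at hj
      have h1 : ∃ u, (u, j) ∈ T0 := by
        by_contra h
        exact hj.2 (mem_fr1.2 ⟨hj.1, fun u hu => h ⟨u, hu⟩⟩)
      obtain ⟨u, hu⟩ := h1
      refine ⟨u, ?_, hu⟩
      rcases (hP u).1 ⟨j, hu⟩ with h2 | h2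
      · have h3 := (hT0' u j hu).1 h2
        exact absurd (mem_om.2 (Or.inr (by rw [h3, hj.1]))) h2
      · exact h2
  have hsub : fr1 Q T0 ⊆ row Q 1 := fun j hj => mem_row.2 (mem_fr1.1 hj).1
  have h2 := card_sdiff_add_card_eq_card hsub
  rw [card_row] at h2
  have hne : (fr1 Q T0).Nonempty := by
    rw [← card_pos]
    rw [zero_add] at hc
    omega
  obtain ⟨j, hj⟩ := hne
  have hcard : T0.card + (fr1 Q T0).card = siz Q := by
    have h1 : T0.card = (T0.image Prod.snd).card := by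
      rw [card_image_of_injOn]
      rintro ⟨a, b⟩ ha ⟨a', b'⟩ hb hab
      exact hM0 _ ha _ hb (Or.inr hab)
    rw [h1, ← card_union_of_disjoint]
    · unfold siz
      congr 1
      ext j
      rw [mem_union, mem_image, mem_filter]
      constructor
      · rintro (⟨⟨a, b⟩, h3, h4⟩ | h)
        · simp only at h4
          rw [h4] at h3
          exact ⟨mem_univ _, hQ a j h3⟩
        · have := (mem_fr1.1 h).1
          exact ⟨mem_univ _, by omega⟩
      · rintro ⟨-, h3⟩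
        by_cases h4 : ∃ u, (u, j) ∈ T0
        · obtain ⟨u, hu⟩ := h4
          exact Or.inl ⟨(u, j), hu, rfl⟩
        · right
          refine mem_fr1.2 ⟨?_, fun u hu => h4 ⟨u, hu⟩⟩
          by_contra h5
          exact h4 (hQ2 j h3 h5)
    · rw [disjoint_left]
      intro j hj hj'
      rw [mem_image] at hj
      obtain ⟨⟨a, b⟩, h3, h4⟩ := hj
      simp only at h4
      rw [h4] at h3
      exact hfr j hj' _ h3
  have h3 : (fr1 Q T0).card = ((fr1 Q T0).erase j).card + 1 := (card_erase_add_one hj).symm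
  have hfr' : ∀ j' ∈ (fr1 Q T0).erase j, ∀ u, (u, j') ∉ T0 := fun j' hj' => hfr j' (mem_of_mem_erase hj')
  rw [h3, pow_succ', Module.End.mul_apply, S.pow_J T0 hM0 _ hfr', map_sum]
  refine Submodule.sum_mem _ fun T hT => hN T (mem_ExH.1 hT).1 ?_
  rw [card_ExH hT hfr']
  omega

/-- A3 -/
theorem garnir {k : ℕ} (F : Finset (Fin k) → E) (N : Submodule K E) (Om : Finset (Fin k)) (a : ℕ)
    (h : ∀ Z ⊆ Om, Z.card < a → ∑ A ∈ (Om.powersetCard a).filter (fun A => Z ⊆ A), F A ∈ N) (X : Finset (Fin k)) :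
    ∀ Z ⊆ Om, X ⊆ Om → Disjoint X Z → X.card + Z.card < a →
      ∑ A ∈ (Om.powersetCard a).filter (fun A => Z ⊆ A ∧ Disjoint X A), F A ∈ N := by
  induction X using Finset.induction_on with
  | empty =>
    intro Z hZ _ _ hc
    rw [card_empty, zero_add] at hc
    have := h Z hZ hc
    simpa using this
  | insert x X hx ih =>
    intro Z hZ hX hd hc
    rw [card_insert_of_notMem hx] at hc
    have hxO : x ∈ Om := hX (mem_insert_self _ _)
    have hXO : X ⊆ Om := (subset_insert _ _).trans hX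
    rw [disjoint_insert_left] at hd
    have h1 := ih Z hZ hXO hd.2 (by omega)
    have h2 := ih (insert x Z) (insert_subset hxO hZ) hXO
      (disjoint_insert_right.2 ⟨hx, hd.2⟩) (by rw [card_insert_of_notMem hd.1]; omega)
    have e : (∑ A ∈ (Om.powersetCard a).filter (fun A => Z ⊆ A ∧ Disjoint (insert x X) A), F A) =
        (∑ A ∈ (Om.powersetCard a).filter (fun A => Z ⊆ A ∧ Disjoint X A), F A) -
        ∑ A ∈ (Om.powersetCard a).filter (fun A => insert x Z ⊆ A ∧ Disjoint X A), F A := by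
      rw [eq_sub_iff_add_eq, ← sum_union]
      · refine sum_congr ?_ fun _ _ => rfl
        ext A
        simp only [mem_union, mem_filter, disjoint_insert_left, insert_subset_iff]
        tauto
      · rw [disjoint_left]
        intro A hA hA'
        simp only [mem_filter, disjoint_insert_left, insert_subset_iff] at hA hA'
        tauto
    rw [e]
    exact N.sub_mem h1 h2

end Pool.Agent.H12.PPA
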