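import Pool.Agent.H12.PP.A2

/-!
MP_28250c_PP, block A (helper12): straightening (A4).
-/

set_option autoImplicit false
set_option linter.unusedSectionVars false

namespace Pool.Agent.H12.PPA

open Finset Classical

variable {m n : ℕ} {K E : Type*} [Field K] [AddCommGroup E] [Module K E]

/-- ballot words -/
def Bal {k : ℕ} (P : Fin k → ℕ) : Prop :=
  ∀ v : Fin k, ∀ i, (univ.filter (fun u => u ≤ v ∧ P u = i + 1)).card ≤ (univ.filter (fun u => u ≤ v ∧ P u = i)).card

theorem card_om (P : Fin m → ℕ) (i : ℕ) : (om P i).card = fib P i + fib P (i + 1) := by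
  unfold om fib
  rw [filter_or, card_union_of_disjoint]
  rw [disjoint_filter]
  intro u _ h
  omega

theorem fib_up_A {P : Fin m → ℕ} {i : ℕ} {A : Finset (Fin m)} (hA : A ⊆ om P i) :
    fib (up P (om P i) i A) (i + 1) = A.card := by
  unfold fib
  congr 1
  ext u
  rw [mem_filter]
  constructor
  · rintro ⟨-, h⟩
    by_contra h1
    by_cases h2 : u ∈ om P i
    · rw [up_O h1 h2] at h
      omega
    · rw [up_N hA h2] at h
      exact h2 (mem_om.2 (Or.inr h))
  · intro h
    exact ⟨mem_univ _, up_A h⟩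

theorem fib_up_O {P : Fin m → ℕ} {i : ℕ} {A : Finset (Fin m)} (hA : A ⊆ om P i) :
    fib (up P (om P i) i A) i + A.card = (om P i).card := by
  rw [← card_sdiff_add_card_eq_card hA]
  congr 1
  unfold fib
  congr 1
  ext u
  rw [mem_filter, mem_sdiff]
  constructor
  · rintro ⟨-, h⟩
    have h1 : u ∉ A := by
      intro h1
      rw [up_A h1] at h
      omega
    refine ⟨?_, h1⟩
    by_contra h2
    rw [up_N hA h2] at h
    exact h2 (mem_om.2 (Or.inl h))
  · rintro ⟨h1, h2⟩
    exact ⟨mem_univ _, up_O h2 h1⟩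

theorem fib_up_N {P : Fin m → ℕ} {i k : ℕ} {A : Finset (Fin m)} (hA : A ⊆ om P i) (h1 : k ≠ i) (h2 : k ≠ i + 1) :
    fib (up P (om P i) i A) k = fib P k := by
  unfold fib
  congr 1
  ext u
  rw [mem_filter, mem_filter]
  refine and_congr_right fun _ => ?_
  by_cases h3 : u ∈ om P i
  · have h4 := mem_om.1 h3
    by_cases h5 : u ∈ A
    · rw [up_A h5]
      constructor
      · intro h
        omega
      · intro h
        omega
    · rw [up_O h5 h3]
      constructor
      · intro h
        omega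
      · intro h
        omega
  · rw [up_N hA h3]

theorem fib_dn_A {Q : Fin n → ℕ} {i : ℕ} {C : Finset (Fin n)} (hC : C ⊆ row Q (i + 1)) :
    fib (dn Q C i) (i + 1) + C.card = fib Q (i + 1) := by
  rw [← card_row, ← card_row, ← card_sdiff_add_card_eq_card hC]
  congr 2
  ext j
  rw [mem_row, mem_sdiff, mem_row]
  by_cases h : j ∈ C
  · rw [dn_C h]
    constructor
    · intro h1
      omega
    · intro h1
      exact absurd h h1.2
  · rw [dn_N h]
    constructor
    · intro h1
      exact ⟨h1, h⟩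
    · exact fun h1 => h1.1

theorem fib_dn_O {Q : Fin n → ℕ} {i : ℕ} {C : Finset (Fin n)} (hC : C ⊆ row Q (i + 1)) :
    fib (dn Q C i) i = fib Q i + C.card := by
  rw [← card_row, ← card_row, ← card_union_of_disjoint]
  · congr 1
    ext j
    rw [mem_row, mem_union, mem_row]
    by_cases h : j ∈ C
    · rw [dn_C h]
      exact iff_of_true rfl (Or.inr h)
    · rw [dn_N h]
      exact ⟨Or.inl, fun h1 => h1.resolve_right h⟩
  · rw [disjoint_left]
    intro j hj hj'
    have h1 := mem_row.1 (hC hj')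
    have h2 := mem_row.1 hj
    omega

theorem fib_dn_N {Q : Fin n → ℕ} {i k : ℕ} {C : Finset (Fin n)} (hC : C ⊆ row Q (i + 1)) (h1 : k ≠ i) (h2 : k ≠ i + 1) :
    fib (dn Q C i) k = fib Q k := by
  rw [← card_row, ← card_row]
  congr 1
  ext j
  rw [mem_row, mem_row]
  by_cases h : j ∈ C
  · rw [dn_C h]
    have h3 := mem_row.1 (hC h)
    constructor
    · intro h4
      omega
    · intro h4
      omega
  · rw [dn_N h]

theorem pair_up {P : Fin m → ℕ} {Q : Fin n → ℕ} (hPQ : IsPair P Q) {i : ℕ} {A : Finset (Fin m)} (hA : A ⊆ om P i)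
    (hc : A.card = fib Q (i + 1)) : IsPair (up P (om P i) i A) Q := by
  intro l
  by_cases h1 : l = i
  · rw [h1, fib_up_A hA, hc]
  · by_cases h2 : l + 1 = i
    · have h3 := fib_up_O hA
      have h4 := card_om P i
      have h5 := hPQ l
      have h6 := hPQ i
      rw [h2] at h5 ⊢
      omega
    · rw [fib_up_N hA h2 (by omega), hPQ l]

theorem pair_dn {P : Fin m → ℕ} {Q : Fin n → ℕ} (hPQ : IsPair P Q) {i : ℕ} {Z : Finset (Fin m)} (hZ : Z ⊆ om P i)
    {C : Finset (Fin n)} (hC : C ⊆ row Q (i + 1)) (hc : C.card = fib Q (i + 1) - Z.card) (hZc : Z.card ≤ fib Q (i + 1)) :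
    IsPair (up P (om P i) i Z) (dn Q C i) := by
  intro l
  have h3 := fib_up_O hZ
  have h4 := card_om P i
  have h6 := hPQ i
  have h7 := fib_dn_A hC
  have h8 := fib_dn_O hC
  by_cases h1 : l = i
  · rw [h1, fib_up_A hZ]
    omega
  · by_cases h2 : l + 1 = i
    · have h5 := hPQ l
      rw [h2] at h5 ⊢
      omega
    · rw [fib_up_N hZ h2 (by omega), fib_dn_N hC h2 (by omega), hPQ l]

theorem siz_dn {Q : Fin n → ℕ} {i : ℕ} (hi : i ≠ 0) {C : Finset (Fin n)} (hC : C ⊆ row Q (i + 1)) :
    siz (dn Q C i) = siz Q := by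
  unfold siz
  congr 1
  ext j
  rw [mem_filter, mem_filter]
  refine and_congr_right fun _ => ?_
  by_cases h : j ∈ C
  · rw [dn_C h]
    have := mem_row.1 (hC h)
    constructor
    · intro _
      omega
    · intro _
      exact hi
  · rw [dn_N h]

theorem wt_dn {Q : Fin n → ℕ} {i : ℕ} {C : Finset (Fin n)} (hC : C ⊆ row Q (i + 1)) (hne : C.Nonempty) :
    wt (dn Q C i) < wt Q := by
  unfold wt
  refine sum_lt_sum (fun j _ => ?_) ?_
  · by_cases h : j ∈ C
    · rw [dn_C h, mem_row.1 (hC h)]
      omega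
    · rw [dn_N h]
  · obtain ⟨j, hj⟩ := hne
    exact ⟨j, mem_univ _, by rw [dn_C hj, mem_row.1 (hC hj)]; omega⟩

theorem up_row (P : Fin m → ℕ) (i : ℕ) : up P (om P i) i (row P (i + 1)) = P := by
  funext u
  by_cases h1 : u ∈ row P (i + 1)
  · rw [up_A h1, mem_row.1 h1]
  · by_cases h2 : u ∈ om P i
    · rw [up_O h1 h2]
      rcases mem_om.1 h2 with h3 | h3
      · exact h3.symm
      · exact absurd (mem_row.2 h3) h1
    · rw [up_N (fun x hx => mem_om.2 (Or.inr (mem_row.1 hx))) h2]

theorem ph_up {P : Fin m → ℕ} {i : ℕ} {A : Finset (Fin m)} (hA : A ⊆ om P i) :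
    ph (up P (om P i) i A) = (∑ u, u.val * (if u ∈ om P i then i else P u)) + ∑ u ∈ A, u.val := by
  unfold ph
  rw [← sum_filter_add_sum_filter_not univ (fun u => u ∈ A) (fun u => u.val * up P (om P i) i A u),
    ← sum_filter_add_sum_filter_not univ (fun u => u ∈ A) (fun u => u.val * (if u ∈ om P i then i else P u))]
  have e1 : (univ.filter (fun u => u ∈ A)) = A := by
    ext u
    simp
  rw [e1]
  have e2 : (∑ u ∈ A, u.val * up P (om P i) i A u) = (∑ u ∈ A, u.val * (if u ∈ om P i then i else P u)) + ∑ u ∈ A, u.val := by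
    rw [← sum_add_distrib]
    refine sum_congr rfl fun u hu => ?_
    rw [up_A hu, if_pos (hA hu)]
    ring
  have e3 : (∑ u ∈ univ.filter (fun u => ¬ u ∈ A), u.val * up P (om P i) i A u) =
      ∑ u ∈ univ.filter (fun u => ¬ u ∈ A), u.val * (if u ∈ om P i then i else P u) := by
    refine sum_congr rfl fun u hu => ?_
    have hu' := (mem_filter.1 hu).2
    unfold up
    rw [if_neg hu']
  rw [e2, e3]
  ring

theorem ph_lt {P : Fin m → ℕ} {i : ℕ} {A : Finset (Fin m)} (hA : A ⊆ om P i) (hc : A.card = fib P (i + 1)) (v : Fin m)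
    (h1 : ∀ u ∈ A, u ≤ v → P u = i + 1) (h2 : ∀ u, P u = i + 1 → v < u → u ∈ A) (hne : A ≠ row P (i + 1)) :
    ph P < ph (up P (om P i) i A) := by
  have hR : row P (i + 1) ⊆ om P i := fun x hx => mem_om.2 (Or.inr (mem_row.1 hx))
  have e0 : ph P = ph (up P (om P i) i (row P (i + 1))) := by rw [up_row]
  rw [e0, ph_up hA, ph_up hR]
  refine Nat.add_lt_add_left ?_ _
  set R := row P (i + 1) with hRd
  have hRc : R.card = A.card := by rw [hc, hRd, card_row]
  have k1 : (∑ u ∈ R, u.val) = (∑ u ∈ R \ A, u.val) + ∑ u ∈ R ∩ A, u.val := by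
    rw [add_comm, ← sum_union (disjoint_left.2 fun x hx hx' => (mem_sdiff.1 hx').2 (mem_inter.1 hx).2)]
    refine sum_congr ?_ fun _ _ => rfl
    ext x
    simp only [mem_union, mem_inter, mem_sdiff]
    tauto
  have k2 : (∑ u ∈ A, u.val) = (∑ u ∈ A \ R, u.val) + ∑ u ∈ R ∩ A, u.val := by
    rw [add_comm, ← sum_union (disjoint_left.2 fun x hx hx' => (mem_sdiff.1 hx').2 (mem_inter.1 hx).1)]
    refine sum_congr ?_ fun _ _ => rfl
    ext x
    simp only [mem_union, mem_inter, mem_sdiff]
    tauto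
  rw [k1, k2]
  refine Nat.add_lt_add_right ?_ _
  have c1 : (R \ A).card = (A \ R).card := by
    have h3 := card_sdiff_add_card_inter R A
    have h4 := card_sdiff_add_card_inter A R
    rw [inter_comm] at h4
    omega
  have c2 : 0 < (A \ R).card := by
    rw [card_pos]
    by_contra h3
    rw [not_nonempty_iff_eq_empty, sdiff_eq_empty_iff_subset] at h3
    exact hne (eq_of_subset_of_card_le h3 hRc.le)
  have s1 : (∑ u ∈ R \ A, u.val) ≤ (R \ A).card * v.val := by
    rw [← smul_eq_mul]
    refine sum_le_card_nsmul _ _ _ fun u hu => ?_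
    rw [mem_sdiff] at hu
    by_contra h3
    refine hu.2 (h2 u (mem_row.1 hu.1) ?_)
    rw [Fin.lt_def]
    omega
  have s2 : (A \ R).card * (v.val + 1) ≤ ∑ u ∈ A \ R, u.val := by
    rw [← smul_eq_mul]
    refine card_nsmul_le_sum _ _ _ fun u hu => ?_
    rw [mem_sdiff] at hu
    by_contra h3
    refine hu.2 (mem_row.2 (h1 u hu.1 ?_))
    rw [Fin.le_def]
    omega
  rw [c1] at s1
  nlinarith

/-- A4: the step -/
theorem Sys.step (S : Sys m n K E) (P : Fin m → ℕ) (Q : Fin n → ℕ) (hPQ : IsPair P Q) (N : Submodule K E)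
    (hN : ∀ T, IsM T → T.card + 1 = siz Q → S.J (S.ev T) ∈ N)
    (hlow : ∀ P' Q', IsPair P' Q' → siz Q' = siz Q → wt Q' < wt Q → S.ff P' Q' ∈ N)
    (hph : ∀ P', IsPair P' Q → ph P < ph P' → S.ff P' Q ∈ N) (hnb : ¬ Bal P) : S.ff P Q ∈ N := by
  unfold Bal at hnb
  push Not at hnb
  obtain ⟨v, i, hv⟩ := hnb
  have hg := garnir (fun A => S.ff (up P (om P i) i A) Q) N (om P i) (fib Q (i + 1)) (by
    intro Z hZ hZc
    rcases Nat.eq_zero_or_pos i with h0 | h0
    · subst h0
      exact S.basic0 P Q hZ hZc N hN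
    · rw [S.basic P Q (by omega) hZ]
      refine Submodule.sum_mem _ fun C hC => ?_
      rw [mem_powersetCard] at hC
      refine hlow _ _ (pair_dn hPQ hZ hC.1 hC.2 hZc.le) (siz_dn (by omega) hC.1) (wt_dn hC.1 ?_)
      rw [← card_pos, hC.2]
      omega) (univ.filter (fun u => u ≤ v ∧ P u = i)) (univ.filter (fun u => v < u ∧ P u = i + 1))
    (fun u hu => mem_om.2 (Or.inr (mem_filter.1 hu).2.2)) (fun u hu => mem_om.2 (Or.inl (mem_filter.1 hu).2.2))
    (by
      rw [disjoint_filter]
      intro u _ h1 h2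
      omega)
    (by
      rw [← hPQ i]
      have h1 : fib P (i + 1) = (univ.filter (fun u => u ≤ v ∧ P u = i + 1)).card +
          (univ.filter (fun u => v < u ∧ P u = i + 1)).card := by
        unfold fib
        rw [← card_union_of_disjoint]
        · congr 1
          ext u
          simp only [mem_union, mem_filter, mem_univ, true_and]
          constructor
          · intro h
            rcases le_or_gt u v with h2 | h2
            · exact Or.inl ⟨h2, h⟩
            · exact Or.inr ⟨h2, h⟩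
          · rintro (h | h)
            · exact h.2
            · exact h.2
        · rw [disjoint_filter]
          intro u _ h2 h3
          exact absurd h2.1 (not_le.2 h3.1)
      omega)
  have hR : row P (i + 1) ⊆ om P i := fun x hx => mem_om.2 (Or.inr (mem_row.1 hx))
  have hmem : row P (i + 1) ∈ ((om P i).powersetCard (fib Q (i + 1))).filter
      (fun A => univ.filter (fun u => v < u ∧ P u = i + 1) ⊆ A ∧ Disjoint (univ.filter (fun u => u ≤ v ∧ P u = i)) A) := by
    rw [mem_filter, mem_powersetCard]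
    refine ⟨⟨hR, by rw [card_row, hPQ i]⟩, fun u hu => mem_row.2 (mem_filter.1 hu).2.2, ?_⟩
    rw [disjoint_left]
    intro u hu hu'
    have h1 := (mem_filter.1 hu).2.2
    have h2 := mem_row.1 hu'
    omega
  rw [← add_sum_erase _ _ hmem, up_row] at hg
  have hrest : (∑ A ∈ (((om P i).powersetCard (fib Q (i + 1))).filter
      (fun A => univ.filter (fun u => v < u ∧ P u = i + 1) ⊆ A ∧
        Disjoint (univ.filter (fun u => u ≤ v ∧ P u = i)) A)).erase (row P (i + 1)), S.ff (up P (om P i) i A) Q) ∈ N := by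
    refine Submodule.sum_mem _ fun A hA => ?_
    rw [mem_erase, mem_filter, mem_powersetCard] at hA
    obtain ⟨hne, ⟨hAO, hAc⟩, hZA, hXA⟩ := hA
    refine hph _ (pair_up hPQ hAO hAc) (ph_lt hAO (by rw [hAc, hPQ i]) v ?_ ?_ hne)
    · intro u hu huv
      rcases mem_om.1 (hAO hu) with h1 | h1
      · exact absurd hu (disjoint_left.1 hXA (mem_filter.2 ⟨mem_univ _, huv, h1⟩))
      · exact h1
    · intro u hu huv
      exact hZA (mem_filter.2 ⟨mem_univ _, huv, hu⟩)
  have := N.sub_mem hg hrest
  rwa [add_sub_cancel_right] at this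

theorem pair_sum {P : Fin m → ℕ} {Q : Fin n → ℕ} (hPQ : IsPair P Q) (g : ℕ → ℕ) (g0 : g 0 = 0) :
    ∑ u, g (P u) = ∑ j, g (Q j) := by
  obtain ⟨B, hB⟩ : ∃ B, B = (∑ u, P u) + (∑ j, Q j) + 1 := ⟨_, rfl⟩
  have h1 : ∀ u ∈ (univ : Finset (Fin m)), P u ∈ range B := by
    intro u _
    rw [mem_range, hB]
    have := single_le_sum (f := P) (fun _ _ => Nat.zero_le _) (mem_univ u)
    omega
  have h2 : ∀ j ∈ (univ : Finset (Fin n)), Q j ∈ range B := by
    intro j _
    rw [mem_range, hB]
    have := single_le_sum (f := Q) (fun _ _ => Nat.zero_le _) (mem_univ j)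
    omega
  rw [← sum_fiberwise_of_maps_to h1, ← sum_fiberwise_of_maps_to h2]
  refine sum_congr rfl fun i _ => ?_
  have e1 : (∑ u ∈ univ.filter (fun u => P u = i), g (P u)) = fib P i * g i := by
    rw [sum_congr rfl (fun u hu => by rw [(mem_filter.1 hu).2] : ∀ u ∈ univ.filter (fun u => P u = i), g (P u) = g i),
      sum_const, smul_eq_mul]
    rfl
  have e2 : (∑ j ∈ univ.filter (fun j => Q j = i), g (Q j)) = fib Q i * g i := by
    rw [sum_congr rfl (fun u hu => by rw [(mem_filter.1 hu).2] : ∀ u ∈ univ.filter (fun u => Q u = i), g (Q u) = g i),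
      sum_const, smul_eq_mul]
    rfl
  rcases Nat.eq_zero_or_pos i with h | h
  · rw [h] at e1 e2 ⊢
    simp only [g0, mul_zero] at e1 e2
    rw [e1, e2]
  · obtain ⟨k, rfl⟩ : ∃ k, i = k + 1 := ⟨i - 1, by omega⟩
    rw [e1, e2, hPQ k]

theorem pair_wt {P : Fin m → ℕ} {Q : Fin n → ℕ} (hPQ : IsPair P Q) : wt P = wt Q := pair_sum hPQ (fun x => x) rfl

theorem pair_siz {P : Fin m → ℕ} {Q : Fin n → ℕ} (hPQ : IsPair P Q) : siz P = siz Q := by
  have := pair_sum hPQ (fun x => if x = 0 then 0 else 1) rfl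
  unfold siz
  rw [card_filter, card_filter]
  simpa using this

theorem IsPair.symm {P : Fin m → ℕ} {Q : Fin n → ℕ} (hPQ : IsPair P Q) : IsPair Q P := fun i => (hPQ i).symm

theorem ph_le (P : Fin m → ℕ) : ph P ≤ m * wt P := by
  unfold ph wt
  rw [mul_sum]
  exact sum_le_sum fun u _ => Nat.mul_le_mul_right _ u.isLt.le

/-- straightening -/
theorem Sys.straight (S : Sys m n K E) (N : Submodule K E) (D : ℕ)
    (hN : ∀ T, IsM T → T.card + 1 = D → S.J (S.ev T) ∈ N)
    (hB : ∀ P Q, Bal P → Bal Q → IsPair P Q → siz Q = D → S.ff P Q ∈ N) :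
    ∀ P Q, IsPair P Q → siz Q = D → S.ff P Q ∈ N := by
  have key : ∀ w, ∀ k, ∀ P Q, IsPair P Q → siz Q = D → wt Q = w → (m + n) * w - (ph P + ph Q) = k → S.ff P Q ∈ N := by
    intro w
    induction w using Nat.strong_induction_on with
    | _ w ihw =>
      intro k
      induction k using Nat.strong_induction_on with
      | _ k ihk =>
        intro P Q hPQ hD hw hk
        have hwP : wt P = w := by rw [pair_wt hPQ, hw]
        have b1 := ph_le P
        have b2 := ph_le Q
        rw [hwP] at b1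
        rw [hw] at b2
        by_cases hP : Bal P
        · by_cases hQ : Bal Q
          · exact hB P Q hP hQ hPQ hD
          · rw [← S.ff_sw]
            refine S.sw.step Q P hPQ.symm N ?_ ?_ ?_ hQ
            · intro T hT hc
              refine hN (PPA.sw T) (isM_sw.2 hT) ?_
              rw [sw_card, hc, pair_siz hPQ, hD]
            · intro Q' P' hPQ' hs hwt
              rw [S.ff_sw]
              refine ihw (wt Q') ?_ _ P' Q' hPQ'.symm ?_ rfl rfl
              · rw [pair_wt hPQ', ← hwP]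
                exact hwt
              · rw [pair_siz hPQ', hs, pair_siz hPQ, hD]
            · intro Q' hPQ' hlt
              rw [S.ff_sw]
              have hw' : wt Q' = w := by rw [pair_wt hPQ', hwP]
              refine ihk ((m + n) * w - (ph P + ph Q')) ?_ P Q' hPQ'.symm ?_ hw' rfl
              · have b3 := ph_le Q'
                rw [hw'] at b3
                rw [add_mul] at hk ⊢
                omega
              · rw [pair_siz hPQ', pair_siz hPQ, hD]
        · refine S.step P Q hPQ N (by rw [hD]; exact hN) ?_ ?_ hP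
          · intro P' Q' hPQ' hs hwt
            exact ihw (wt Q') (by rw [← hw]; exact hwt) _ P' Q' hPQ' (by rw [hs, hD]) rfl rfl
          · intro P' hPQ' hlt
            refine ihk ((m + n) * w - (ph P' + ph Q)) ?_ P' Q hPQ' hD hw rfl
            have hw' : wt P' = w := by rw [pair_wt hPQ', hw]
            have b3 := ph_le P'
            rw [hw'] at b3
            rw [add_mul] at hk ⊢
            omega
  intro P Q hPQ hD
  exact key _ _ P Q hPQ hD rfl rfl

end Pool.Agent.H12.PPA
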