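import Pool.Agent.H12.PP.A3

/-!
MP_28250c_PP, block A (helper12): the span of the ballot pairs (A1).
-/

set_option autoImplicit false
set_option linter.unusedSectionVars false

namespace Pool.Agent.H12.PPA

open Finset Classical

variable {m n : ℕ} {K E : Type*} [Field K] [AddCommGroup E] [Module K E]

/-- the span of the evaluations at the sets of size `D` -/
def Sys.Md (S : Sys m n K E) (D : ℕ) : Submodule K E :=
  Submodule.span K {x | ∃ T : Finset (Fin m × Fin n), T.card = D ∧ x = S.ev T}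

theorem card_snd {T : Finset (Fin m × Fin n)} (hT : IsM T) : (univ.filter (fun j => ∃ i, (i, j) ∈ T)).card = T.card := by
  have h1 : T.card = (T.image Prod.snd).card := by
    rw [card_image_of_injOn]
    rintro ⟨a, b⟩ ha ⟨a', b'⟩ hb hab
    exact hT _ ha _ hb (Or.inr hab)
  rw [h1]
  congr 1
  ext j
  rw [mem_filter, mem_image]
  constructor
  · rintro ⟨-, i, hi⟩
    exact ⟨(i, j), hi, rfl⟩
  · rintro ⟨⟨a, b⟩, h3, h4⟩
    simp only at h4
    rw [h4] at h3
    exact ⟨mem_univ _, a, h3⟩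

theorem card_fits {P : Fin m → ℕ} {Q : Fin n → ℕ} {T : Finset (Fin m × Fin n)} (h : Fits P Q T) : T.card = siz Q := by
  rw [← card_snd h.1]
  unfold siz
  congr 1
  ext j
  rw [mem_filter, mem_filter, h.2.2.1 j]

theorem Sys.ff_mem_Md (S : Sys m n K E) (P : Fin m → ℕ) (Q : Fin n → ℕ) : S.ff P Q ∈ S.Md (siz Q) := by
  unfold Sys.ff
  refine Submodule.sum_mem _ fun T hT => Submodule.subset_span ⟨T, card_fits (mem_filter.1 hT).2, rfl⟩

/-- the labels of the pigeons -/
noncomputable def lP (T : Finset (Fin m × Fin n)) : Fin m → ℕ := fun i => if ∃ j, (i, j) ∈ T then i.val + 1 else 0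

/-- the labels of the holes -/
noncomputable def lQ (T : Finset (Fin m × Fin n)) : Fin n → ℕ := fun j => if h : ∃ i, (i, j) ∈ T then h.choose.val + 1 else 0

theorem lP_mem {T : Finset (Fin m × Fin n)} {i : Fin m} {j : Fin n} (h : (i, j) ∈ T) : lP T i = i.val + 1 :=
  if_pos ⟨j, h⟩

theorem lQ_mem {T : Finset (Fin m × Fin n)} (hT : IsM T) {i : Fin m} {j : Fin n} (h : (i, j) ∈ T) : lQ T j = i.val + 1 := by
  have h1 : ∃ i, (i, j) ∈ T := ⟨i, h⟩
  unfold lQ
  rw [dif_pos h1, hT.fst h1.choose_spec h]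

theorem lP_ne {T : Finset (Fin m × Fin n)} {i : Fin m} : lP T i ≠ 0 ↔ ∃ j, (i, j) ∈ T := by
  constructor
  · intro h
    by_contra h1
    exact h (if_neg h1)
  · rintro ⟨j, h⟩
    rw [lP_mem h]
    omega

theorem lQ_ne {T : Finset (Fin m × Fin n)} {j : Fin n} : lQ T j ≠ 0 ↔ ∃ i, (i, j) ∈ T := by
  constructor
  · intro h
    by_contra h1
    exact h (dif_neg h1)
  · intro h
    unfold lQ
    rw [dif_pos h]
    omega

theorem fits_lab {T : Finset (Fin m × Fin n)} (hT : IsM T) (T' : Finset (Fin m × Fin n)) :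
    Fits (lP T) (lQ T) T' ↔ T' = T := by
  constructor
  · rintro ⟨hM, hP, hQ, h⟩
    have h1 : ∀ i j, (i, j) ∈ T' → (i, j) ∈ T := by
      intro i j hij
      obtain ⟨j1, hj1⟩ := lP_ne.1 ((hP i).2 ⟨j, hij⟩)
      obtain ⟨i1, hi1⟩ := lQ_ne.1 ((hQ j).2 ⟨i, hij⟩)
      have h2 := h i j hij
      rw [lP_mem hj1, lQ_mem hT hi1] at h2
      have h3 : i = i1 := Fin.ext (by omega)
      rwa [h3]
    refine Subset.antisymm (fun e he => h1 e.1 e.2 he) ?_
    rintro ⟨i, j⟩ hij
    obtain ⟨j1, hj1⟩ := (hP i).1 (lP_ne.2 ⟨j, hij⟩)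
    rwa [hT.snd hij (h1 i j1 hj1)]
  · rintro rfl
    refine ⟨hT, fun i => lP_ne, fun j => lQ_ne, fun i j hij => ?_⟩
    rw [lP_mem hij, lQ_mem hT hij]

theorem Sys.ff_lab (S : Sys m n K E) {T : Finset (Fin m × Fin n)} (hT : IsM T) : S.ff (lP T) (lQ T) = S.ev T := by
  unfold Sys.ff
  have h1 : univ.filter (Fits (lP T) (lQ T)) = {T} := by
    ext T'
    rw [mem_filter, mem_singleton, fits_lab hT]
    exact and_iff_right (mem_univ _)
  rw [h1, sum_singleton]

theorem pair_lab {T : Finset (Fin m × Fin n)} (hT : IsM T) : IsPair (lP T) (lQ T) := by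
  intro l
  unfold fib
  refine card_match hT _ _ ?_ ?_
  · intro u hu
    have h1 := (mem_filter.1 hu).2
    obtain ⟨j, hj⟩ := lP_ne.1 (by rw [h1]; omega : lP T u ≠ 0)
    refine ⟨j, mem_filter.2 ⟨mem_univ _, ?_⟩, hj⟩
    rw [lP_mem hj] at h1
    rw [lQ_mem hT hj, h1]
  · intro j hj
    have h1 := (mem_filter.1 hj).2
    obtain ⟨u, hu⟩ := lQ_ne.1 (by rw [h1]; omega : lQ T j ≠ 0)
    refine ⟨u, mem_filter.2 ⟨mem_univ _, ?_⟩, hu⟩
    rw [lQ_mem hT hu] at h1
    rw [lP_mem hu, h1]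

theorem siz_lab {T : Finset (Fin m × Fin n)} (hT : IsM T) : siz (lQ T) = T.card := by
  rw [← card_snd hT]
  unfold siz
  congr 1
  ext j
  rw [mem_filter, mem_filter, lQ_ne]

theorem Sys.Md_le (S : Sys m n K E) (D : ℕ) : S.Md D ≤ Submodule.span K
    {x | ∃ P Q, Bal P ∧ Bal Q ∧ IsPair P Q ∧ siz Q ≤ D ∧ x = (S.J ^ (D - siz Q)) (S.ff P Q)} := by
  induction D with
  | zero =>
    refine Submodule.span_le.2 ?_
    rintro x ⟨T, hc, rfl⟩
    by_cases hT : IsM T
    · rw [← S.ff_lab hT]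
      refine S.straight _ 0 (fun T' _ h => by omega) ?_ _ _ (pair_lab hT) (by rw [siz_lab hT, hc])
      intro P Q hP hQ hPQ hs
      refine Submodule.subset_span ⟨P, Q, hP, hQ, hPQ, hs.le, ?_⟩
      rw [Nat.zero_sub, pow_zero]
      rfl
    · rw [S.nm T hT]
      exact Submodule.zero_mem _
  | succ D ih =>
    refine Submodule.span_le.2 ?_
    rintro x ⟨T, hc, rfl⟩
    by_cases hT : IsM T
    · rw [← S.ff_lab hT]
      refine S.straight _ (D + 1) (fun T' hT' h => ?_) ?_ _ _ (pair_lab hT) (by rw [siz_lab hT, hc])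
      · have h1 : S.ev T' ∈ S.Md D := Submodule.subset_span ⟨T', by omega, rfl⟩
        have h2 := ih h1
        have h3 : ∀ y ∈ Submodule.span K
            {x | ∃ P Q, Bal P ∧ Bal Q ∧ IsPair P Q ∧ siz Q ≤ D ∧ x = (S.J ^ (D - siz Q)) (S.ff P Q)},
            S.J y ∈ Submodule.span K
            {x | ∃ P Q, Bal P ∧ Bal Q ∧ IsPair P Q ∧ siz Q ≤ D + 1 ∧ x = (S.J ^ (D + 1 - siz Q)) (S.ff P Q)} := by
          intro y hy
          induction hy using Submodule.span_induction with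
          | mem x hx =>
            obtain ⟨P, Q, hP, hQ, hPQ, hs, rfl⟩ := hx
            refine Submodule.subset_span ⟨P, Q, hP, hQ, hPQ, by omega, ?_⟩
            rw [Nat.sub_add_comm hs, pow_succ', Module.End.mul_apply]
          | zero =>
            rw [map_zero]
            exact Submodule.zero_mem _
          | add x y _ _ hx hy =>
            rw [map_add]
            exact Submodule.add_mem _ hx hy
          | smul c x _ hx =>
            rw [map_smul]
            exact Submodule.smul_mem _ c hx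
        exact h3 _ h2
      · intro P Q hP hQ hPQ hs
        refine Submodule.subset_span ⟨P, Q, hP, hQ, hPQ, hs.le, ?_⟩
        rw [hs, Nat.sub_self, pow_zero]
        rfl
    · rw [S.nm T hT]
      exact Submodule.zero_mem _

theorem Sys.Md_le' (S : Sys m n K E) (s : ℕ) (hnil : ∀ D, ∀ x ∈ S.Md D, (S.J ^ s) x = 0) (D : ℕ) :
    S.Md D ≤ Submodule.span K
    {x | ∃ P Q, Bal P ∧ Bal Q ∧ IsPair P Q ∧ (siz Q ≤ D ∧ D < siz Q + s) ∧ x = (S.J ^ (D - siz Q)) (S.ff P Q)} := by
  refine (S.Md_le D).trans (Submodule.span_le.2 ?_)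
  rintro x ⟨P, Q, hP, hQ, hPQ, hs, rfl⟩
  by_cases h : D < siz Q + s
  · exact Submodule.subset_span ⟨P, Q, hP, hQ, hPQ, ⟨hs, h⟩, rfl⟩
  · have h1 : D - siz Q = (D - siz Q - s) + s := by omega
    rw [h1, pow_add, Module.End.mul_apply, hnil _ _ (S.ff_mem_Md P Q), map_zero]
    exact Submodule.zero_mem _

end Pool.Agent.H12.PPA
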