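import Pool.Agent.H12.PP.A4
import Pool.Agent.H94.PP.V0

/-!
MP_28250c_PP, block A (helper12): `OutA`, the upper bound for the dimension of `Md D`.
-/

set_option autoImplicit false
set_option linter.unusedSectionVars false

namespace PPh

open Finset Classical
open Pool.Agent.H12

/-- the abstract system of `VOps` -/
noncomputable def sysOf {p m n : ℕ} (v : VOps p m n) [Fact p.Prime] : PPA.Sys m n (ZMod p) (VE p m n) where
  ev := ev p m n
  J := v.J
  nm := fun T hT => v.evnot T hT
  hp := fun T _ i hi => v.Jrow T i (fun e he h => hi e.2 (by rw [← h]; exact he))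
  hh := fun T _ j hj => v.Jcol T j (fun e he h => hj e.1 (by rw [← h]; exact he))

theorem ballot_of_bal {N : ℕ} {w : Fin N → ℕ} (h : PPA.Bal w) : Ballot w := by
  intro v i
  rcases Nat.eq_zero_or_pos N with h0 | h0
  · subst h0
    exact card_le_card fun u _ => u.elim0
  · rcases Nat.eq_zero_or_pos v with hv | hv
    · subst hv
      have : (univ.filter fun u : Fin N => (u : ℕ) < 0 ∧ w u = i + 1) = ∅ := by
        ext u
        simp
      rw [this]
      exact Nat.zero_le _
    · obtain ⟨v', hv'⟩ : ∃ v' : Fin N, ∀ u : Fin N, (u : ℕ) < v ↔ u ≤ v' := by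
        rcases le_or_gt v N with h1 | h1
        · refine ⟨⟨v - 1, by omega⟩, fun u => ?_⟩
          rw [Fin.le_def]
          simp only
          omega
        · refine ⟨⟨N - 1, by omega⟩, fun u => ?_⟩
          rw [Fin.le_def]
          simp only
          have := u.isLt
          omega
      have h2 := h v' i
      simp only [← hv'] at h2
      exact h2

theorem ballot_le {N : ℕ} {w : Fin N → ℕ} (h : Ballot w) : ∀ k : ℕ, ∀ u : Fin N, (u : ℕ) = k → w u ≤ k := by
  intro k
  induction k using Nat.strong_induction_on with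
  | _ k ih =>
    intro u hu
    rcases Nat.eq_zero_or_pos (w u) with h0 | h0
    · omega
    · obtain ⟨i, hi⟩ : ∃ i, w u = i + 1 := ⟨w u - 1, by omega⟩
      have h1 := h (k + 1) i
      have h2 : 0 < (univ.filter fun u : Fin N => (u : ℕ) < k + 1 ∧ w u = i + 1).card :=
        card_pos.2 ⟨u, mem_filter.2 ⟨mem_univ _, by omega, hi⟩⟩
      have h3 : 0 < (univ.filter fun u : Fin N => (u : ℕ) < k + 1 ∧ w u = i).card := lt_of_lt_of_le h2 h1
      obtain ⟨u', hu'⟩ := card_pos.1 h3
      obtain ⟨-, h4, h5⟩ := mem_filter.1 hu'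
      have h6 : (u' : ℕ) ≠ k := by
        intro h6
        have : u' = u := Fin.ext (by omega)
        rw [this] at h5
        omega
      have h7 := ih u' (by omega) u' rfl
      omega

theorem bset_finite (m n : ℕ) (R : ℕ → ℕ → Prop) : (bset m n R).Finite := by
  refine Set.Finite.subset ((Set.finite_Icc (0 : Fin m → ℕ) (fun _ => m)).prod
    (Set.finite_Icc (0 : Fin n → ℕ) (fun _ => n))) ?_
  rintro ⟨P, Q⟩ ⟨hP, hQ, -, -⟩
  refine ⟨⟨fun u => Nat.zero_le _, fun u => ?_⟩, ⟨fun u => Nat.zero_le _, fun u => ?_⟩⟩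
  · exact (ballot_le hP u.val u rfl).trans u.isLt.le
  · exact (ballot_le hQ u.val u rfl).trans u.isLt.le

theorem siz_add_ctt {n : ℕ} (Q : Fin n → ℕ) : PPA.siz Q + ctt Q 0 = n := by
  unfold PPA.siz ctt
  have h1 := card_filter_add_card_filter_not (s := (univ : Finset (Fin n))) (fun j => Q j = 0)
  rw [card_univ, Fintype.card_fin] at h1
  have h2 : (univ.filter fun j : Fin n => Q j ≠ 0).card = (univ.filter fun j : Fin n => ¬ Q j = 0).card := by
    congr!
  omega

theorem finrank_Md_le {p l n : ℕ} [Fact p.Prime] (v : VOps p (n + p ^ l) n) (hv : VNil p l n v) (D : ℕ) (hD : D ≤ n) :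
    Module.finrank (ZMod p) (Md p (n + p ^ l) n D) ≤
      cnt (n + p ^ l) n fun u _ => n - D ≤ u ∧ u < n - D + p ^ l := by
  have h1 := (sysOf v).Md_le' (p ^ l) hv.nil D
  have hfin := bset_finite (n + p ^ l) n (fun u _ => n - D ≤ u ∧ u < n - D + p ^ l)
  set B := hfin.toFinset with hB
  let φ : (Fin (n + p ^ l) → ℕ) × (Fin n → ℕ) → VE p (n + p ^ l) n := fun PQ =>
    ((sysOf v).J ^ (D - PPA.siz PQ.2)) ((sysOf v).ff PQ.1 PQ.2)
  have h2 : Md p (n + p ^ l) n D ≤ Submodule.span (ZMod p) ((B.image φ : Finset _) : Set (VE p (n + p ^ l) n)) := by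
    refine h1.trans (Submodule.span_mono ?_)
    rintro x ⟨P, Q, hP, hQ, hPQ, ⟨hs1, hs2⟩, rfl⟩
    rw [coe_image]
    refine ⟨(P, Q), ?_, rfl⟩
    rw [hB, Set.Finite.coe_toFinset]
    have h3 := siz_add_ctt Q
    refine ⟨ballot_of_bal hP, ballot_of_bal hQ, ?_, ?_, ?_⟩
    · intro i hi
      have := hPQ (i - 1)
      rw [Nat.sub_add_cancel hi] at this
      exact this
    · simp only
      omega
    · simp only
      omega
  have h4 : Module.finrank (ZMod p) (Md p (n + p ^ l) n D) ≤
      Module.finrank (ZMod p) (Submodule.span (ZMod p) ((B.image φ : Finset _) : Set (VE p (n + p ^ l) n))) := by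
    have := FiniteDimensional.span_finset (ZMod p) (B.image φ)
    exact Submodule.finrank_mono h2
  refine h4.trans ((finrank_span_finset_le_card _).trans (card_image_le.trans (le_of_eq ?_)))
  unfold cnt
  rw [Set.ncard_eq_toFinset_card _ hfin]

/-- block A -/
theorem outA_of (p l : ℕ) [Fact p.Prime] (h : ∀ n (v : VOps p (n + p ^ l) n), VNil p l n v) : OutA p l := by
  intro n D hD
  have hp : 0 < p ^ l := Nat.pow_pos (Fact.out (p := p.Prime)).pos
  have v : VOps p (n + p ^ l) n := vops p (n + p ^ l) n (by omega)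
  exact finrank_Md_le v (h n v) D hD

end PPh
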